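import Pool.Agent.H91.LevyGromov

set_option autoImplicit false

open MeasureTheory Real Laplacian H91.LevyGromov in
theorem Pool.Agent.Results.MP_c070b6_an.HalfPlane.result :
    ∃ (u : ℂ → ℝ) (Ω : Set ℂ) (ρ : ℂ → ℝ), ContDiff ℝ 2 u ∧
    (∀ z, (Δ u) z + rexp (2 * u z) ≤ 0) ∧ Integrable (fun z => rexp (2 * u z)) ∧
    IsOpen Ω ∧ IsConnected Ω ∧ ContDiff ℝ ((⊤ : ℕ∞) : WithTop ℕ∞) ρ ∧ Ω = {z | 0 < ρ z} ∧
    (∀ z, ρ z = 0 → fderiv ℝ ρ z ≠ 0) ∧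
    IntegrableOn (fun z => rexp (u z)) (frontier Ω) (Measure.hausdorffMeasure 1) ∧
    (∫ z in frontier Ω, rexp (u z) ∂(Measure.hausdorffMeasure 1)) ^ 2 <
      (∫ z in Ω, rexp (2 * u z)) * ∫ z in Ωᶜ, rexp (2 * u z) :=
  main
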